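import Pool.Agent.Lib.MP_688fd0_co.LIN.Iface

/-!
# Modules MASS and OPT
-/

set_option autoImplicit false

namespace Pool.Agent.Lib.MP_688fd0_co.LIN.H15

open Classical
open Pool.Agent.Lib.MP_688fd0_co.LP (IsP Conn Cyc Symm cay)

universe u

section

variable {V : Type u} [Fintype V]

theorem mem_cov {H : SimpleGraph V} {v : V} : v ∈ cov H ↔ ∃ w, H.Adj v w := by
  simp [cov]

theorem mem_cyc {H : SimpleGraph V} {v w : V} : w ∈ cyc H v ↔ H.Reachable v w := by
  simp [cyc]

theorem self_mem_cyc (H : SimpleGraph V) (v : V) : v ∈ cyc H v :=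
  mem_cyc.2 (SimpleGraph.Reachable.refl v)

theorem cyc_eq {H : SimpleGraph V} {v w : V} (h : H.Reachable v w) : cyc H v = cyc H w := by
  ext x
  rw [mem_cyc, mem_cyc]
  exact ⟨fun h' => h.symm.trans h', fun h' => h.trans h'⟩

theorem cyc_eq_iff {H : SimpleGraph V} {v w : V} : cyc H v = cyc H w ↔ H.Reachable v w := by
  refine ⟨fun h => ?_, cyc_eq⟩
  have : w ∈ cyc H v := h ▸ self_mem_cyc H w
  exact mem_cyc.1 this

/-- Transfer of reachability along a closed set of vertices. -/
theorem reach_of {H1 H2 : SimpleGraph V} {X : V → Prop}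
    (h : ∀ x y, X x → H1.Adj x y → H2.Adj x y ∧ X y) {v w : V} (hv : X v)
    (hr : H1.Reachable v w) : H2.Reachable v w ∧ X w := by
  obtain ⟨p⟩ := hr
  induction p with
  | nil => exact ⟨SimpleGraph.Reachable.refl _, hv⟩
  | cons hadj p ih =>
    obtain ⟨h1, h2⟩ := h _ _ hv hadj
    obtain ⟨h3, h4⟩ := ih h2
    exact ⟨h1.reachable.trans h3, h4⟩

theorem cov_of_reach {H : SimpleGraph V} {v w : V} (hv : v ∈ cov H) (h : H.Reachable v w) :
    w ∈ cov H :=
  (reach_of (H1 := H) (H2 := H) (X := fun x => x ∈ cov H)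
    (fun _ _ _ hxy => ⟨hxy, mem_cov.2 ⟨_, hxy.symm⟩⟩) hv h).2

theorem cyc_subset_cov {H : SimpleGraph V} {v : V} (hv : v ∈ cov H) : cyc H v ⊆ cov H :=
  fun _ hw => cov_of_reach hv (mem_cyc.1 hw)

/-- MASS -/
theorem mass : MassStatement.{u} := by
  intro V _ H
  have h1 := Finset.card_eq_sum_card_fiberwise (f := cyc H) (s := cov H) (t := cycs H)
    (fun v hv => Finset.mem_coe.2 (Finset.mem_image_of_mem _ (Finset.mem_coe.1 hv)))
  rw [h1]
  refine Finset.sum_congr rfl fun S hS => ?_
  obtain ⟨v, hv, rfl⟩ := Finset.mem_image.1 hS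
  congr 1
  ext w
  rw [Finset.mem_filter, mem_cyc]
  constructor
  · exact fun h => ⟨cov_of_reach hv h, (cyc_eq h).symm⟩
  · rintro ⟨-, h⟩
    exact (cyc_eq_iff.1 h).symm

/-! ### Deleting a cycle -/

/-- `H` without the component of `v`. -/
def delC (H : SimpleGraph V) (v : V) : SimpleGraph V where
  Adj a b := H.Adj a b ∧ ¬ H.Reachable v a
  symm := ⟨fun _ _ h => ⟨h.1.symm, fun h' => h.2 (h'.trans h.1.symm.reachable)⟩⟩
  loopless := ⟨fun a h => H.loopless.irrefl a h.1⟩

theorem delC_cf {G H : SimpleGraph V} (h : CF G H) (v : V) : CF G (delC H v) where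
  le a b hab := h.le hab.1
  deg a := by
    by_cases ha : H.Reachable v a
    · left
      unfold dg
      rw [Finset.card_eq_zero, Finset.filter_eq_empty_iff]
      exact fun b _ hb => hb.2 ha
    · have : dg (delC H v) a = dg H a := by
        unfold dg
        congr 1
        ext b
        simp only [Finset.mem_filter, Finset.mem_univ, true_and]
        exact ⟨fun h => h.1, fun h => ⟨h, ha⟩⟩
      rw [this]
      exact h.deg a

theorem delC_cov {H : SimpleGraph V} {v : V} : cov (delC H v) = cov H \ cyc H v := by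
  ext w
  rw [Finset.mem_sdiff, mem_cov, mem_cov, mem_cyc]
  constructor
  · rintro ⟨x, hx⟩
    exact ⟨⟨x, hx.1⟩, hx.2⟩
  · rintro ⟨⟨x, hx⟩, hn⟩
    exact ⟨x, hx, hn⟩

theorem delC_ncyc {H : SimpleGraph V} {v : V} (hv : v ∈ cov H) :
    ncyc (delC H v) + 1 ≤ ncyc H := by
  have h1 : cycs (delC H v) ⊆ (cycs H).erase (cyc H v) := by
    intro S hS
    obtain ⟨w, hw, rfl⟩ := Finset.mem_image.1 hS
    rw [delC_cov, Finset.mem_sdiff, mem_cyc] at hw
    have h2 : cyc (delC H v) w = cyc H w := by
      ext x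
      rw [mem_cyc, mem_cyc]
      constructor
      · intro h
        exact (reach_of (H1 := delC H v) (H2 := H) (X := fun _ => True)
          (fun _ _ _ hxy => ⟨hxy.1, trivial⟩) trivial h).1
      · intro h
        exact (reach_of (H1 := H) (H2 := delC H v) (X := fun x => ¬ H.Reachable v x)
          (fun _ _ hx hxy => ⟨⟨hxy, hx⟩, fun h' => hx (h'.trans hxy.symm.reachable)⟩) hw.2 h).1
    rw [h2, Finset.mem_erase]
    exact ⟨fun h => hw.2 (cyc_eq_iff.1 h).symm, Finset.mem_image_of_mem _ hw.1⟩
  have h3 : cyc H v ∈ cycs H := Finset.mem_image_of_mem _ hv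
  have h4 := Finset.card_le_card h1
  rw [Finset.card_erase_of_mem h3] at h4
  have h5 : 0 < (cycs H).card := Finset.card_pos.2 ⟨_, h3⟩
  unfold ncyc
  omega

/-! ### Adding a cycle -/

theorem rot_ne {q : List V} (hnd : q.Nodup) (hl : 3 ≤ q.length) {a : V} (ha : a ∈ q) :
    q.formPerm a ≠ a ∧ q.formPerm (q.formPerm a) ≠ a := by
  obtain ⟨i, hi, rfl⟩ := List.mem_iff_getElem.1 ha
  have h1 := List.formPerm_pow_apply_getElem q hnd 1 i hi
  have h2 := List.formPerm_pow_apply_getElem q hnd 2 i hi
  rw [pow_one] at h1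
  rw [pow_two, Equiv.Perm.mul_apply] at h2
  rw [h2, h1]
  constructor
  · intro h
    have := (hnd.getElem_inj_iff).1 h
    rcases Nat.lt_or_ge (i + 1) q.length with h3 | h3
    · rw [Nat.mod_eq_of_lt h3] at this; omega
    · have h4 : i + 1 = q.length := by omega
      rw [h4, Nat.mod_self] at this; omega
  · intro h
    have := (hnd.getElem_inj_iff).1 h
    rcases Nat.lt_or_ge (i + 2) q.length with h3 | h3
    · rw [Nat.mod_eq_of_lt h3] at this; omega
    · rw [Nat.mod_eq_sub_mod h3, Nat.mod_eq_of_lt (by omega)] at this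
      omega

theorem rot_adj {G : SimpleGraph V} {q : List V} (hc : Cyc G q) {a : V} (ha : a ∈ q) :
    G.Adj a (q.formPerm a) := by
  obtain ⟨⟨hne, hch, hnd⟩, hl, x, y, hx, hy, hxy⟩ := hc
  obtain ⟨i, hi, rfl⟩ := List.mem_iff_getElem.1 ha
  have h1 := List.formPerm_pow_apply_getElem q hnd 1 i hi
  rw [pow_one] at h1
  rw [h1]
  rcases Nat.lt_or_ge (i + 1) q.length with h3 | h3
  · have h4 := List.isChain_iff_getElem.1 hch i h3
    simp only [Nat.mod_eq_of_lt h3]
    exact h4
  · have h4 : i + 1 = q.length := by omega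
    have h5 : (i + 1) % q.length = 0 := by rw [h4, Nat.mod_self]
    have h6 : q[0] = x := by
      rw [List.head?_eq_getElem?, List.getElem?_eq_some_iff] at hx
      exact hx.2
    have h7 : q[i] = y := by
      rw [List.getLast?_eq_getElem?, List.getElem?_eq_some_iff] at hy
      obtain ⟨hh, hy⟩ := hy
      have : i = q.length - 1 := by omega
      subst this
      exact hy
    simp only [h5, h6, h7]
    exact hxy

/-- `H` with a new cycle. -/
def addC (H : SimpleGraph V) (q : List V) (hnd : q.Nodup) (hl : 3 ≤ q.length) :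
    SimpleGraph V where
  Adj a b := H.Adj a b ∨ (a ∈ q ∧ (q.formPerm a = b ∨ q.formPerm b = a))
  symm := ⟨by
    rintro a b (h | ⟨ha, h | h⟩)
    · exact Or.inl h.symm
    · exact Or.inr ⟨by rw [← h]; exact (List.formPerm_mem_iff_mem).2 ha, Or.inr h⟩
    · refine Or.inr ⟨?_, Or.inl h⟩
      rw [← h] at ha
      exact (List.formPerm_mem_iff_mem).1 ha⟩
  loopless := ⟨by
    rintro a (h | ⟨ha, h | h⟩)
    · exact H.loopless.irrefl a h
    · exact (rot_ne hnd hl ha).1 h
    · exact (rot_ne hnd hl ha).1 h⟩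

variable {G H : SimpleGraph V} {q : List V}

theorem addC_notin (hnd : q.Nodup) (hl : 3 ≤ q.length) {a b : V} (ha : a ∉ q) :
    (addC H q hnd hl).Adj a b ↔ H.Adj a b :=
  ⟨fun h => h.elim id fun h => absurd h.1 ha, fun h => Or.inl h⟩

theorem addC_cf (h : CF G H) (hc : Cyc G q) (hd : ∀ v ∈ q, v ∉ cov H) :
    CF G (addC H q hc.1.2.2 hc.2.1) where
  le a b hab := by
    rcases hab with hab | ⟨ha, hab | hab⟩
    · exact h.le hab
    · rw [← hab]; exact rot_adj hc ha
    · have hb : b ∈ q := by
        rw [← hab] at ha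
        exact (List.formPerm_mem_iff_mem).1 ha
      rw [← hab]
      exact (rot_adj hc hb).symm
  deg v := by
    by_cases hv : v ∈ q
    · right
      have h1 : Finset.univ.filter (fun w => (addC H q hc.1.2.2 hc.2.1).Adj v w) =
          {q.formPerm v, q.formPerm⁻¹ v} := by
        ext w
        simp only [Finset.mem_filter, Finset.mem_univ, true_and, Finset.mem_insert,
          Finset.mem_singleton]
        constructor
        · rintro (h1 | ⟨-, h1 | h1⟩)
          · exact absurd (mem_cov.2 ⟨w, h1⟩) (hd v hv)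
          · exact Or.inl h1.symm
          · exact Or.inr (by rw [Equiv.Perm.eq_inv_iff_eq]; exact h1)
        · rintro (h1 | h1)
          · exact Or.inr ⟨hv, Or.inl h1.symm⟩
          · exact Or.inr ⟨hv, Or.inr (by rw [h1]; simp)⟩
      unfold dg
      rw [h1]
      apply Finset.card_pair
      intro h2
      rw [Equiv.Perm.eq_inv_iff_eq] at h2
      exact (rot_ne hc.1.2.2 hc.2.1 hv).2 h2
    · have : dg (addC H q hc.1.2.2 hc.2.1) v = dg H v := by
        unfold dg
        congr 1
        ext b
        simp only [Finset.mem_filter, Finset.mem_univ, true_and]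
        exact addC_notin _ _ hv
      rw [this]
      exact h.deg v

theorem addC_cov (hnd : q.Nodup) (hl : 3 ≤ q.length) :
    cov (addC H q hnd hl) = cov H ∪ q.toFinset := by
  ext v
  rw [Finset.mem_union, mem_cov, mem_cov, List.mem_toFinset]
  constructor
  · rintro ⟨w, h | h⟩
    · exact Or.inl ⟨w, h⟩
    · exact Or.inr h.1
  · rintro (⟨w, h⟩ | h)
    · exact ⟨w, Or.inl h⟩
    · exact ⟨_, Or.inr ⟨h, Or.inl rfl⟩⟩

theorem addC_ncyc (hnd : q.Nodup) (hl : 3 ≤ q.length) (hd : ∀ v ∈ q, v ∉ cov H) :
    ncyc (addC H q hnd hl) ≤ ncyc H + 1 := by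
  have hpos : 0 < q.length := by omega
  have h1 : cycs (addC H q hnd hl) ⊆ insert (cyc (addC H q hnd hl) q[0]) (cycs H) := by
    intro S hS
    obtain ⟨v, hv, rfl⟩ := Finset.mem_image.1 hS
    rw [addC_cov, Finset.mem_union, List.mem_toFinset] at hv
    rw [Finset.mem_insert]
    by_cases hvc : v ∈ q
    · left
      obtain ⟨i, hi, rfl⟩ := List.mem_iff_getElem.1 hvc
      symm
      refine cyc_eq ?_
      clear hvc hv hS
      induction i with
      | zero => exact SimpleGraph.Reachable.refl _
      | succ i ih =>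
        refine (ih (by omega)).trans (SimpleGraph.Adj.reachable ?_)
        refine Or.inr ⟨List.getElem_mem _, Or.inl ?_⟩
        have h1 := List.formPerm_pow_apply_getElem q hnd 1 i (by omega)
        rw [pow_one] at h1
        rw [h1]
        simp only [Nat.mod_eq_of_lt hi]
    · right
      have hv' : v ∈ cov H := hv.resolve_right hvc
      have h2 : cyc (addC H q hnd hl) v = cyc H v := by
        ext x
        rw [mem_cyc, mem_cyc]
        constructor
        · intro h
          refine (reach_of (H1 := addC H q hnd hl) (H2 := H) (X := fun x => x ∈ cov H) ?_ hv' h).1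
          intro a b ha hab
          have ha' : a ∉ q := fun h => hd a h ha
          have hab' := (addC_notin hnd hl ha').1 hab
          exact ⟨hab', mem_cov.2 ⟨a, hab'.symm⟩⟩
        · intro h
          exact (reach_of (H1 := H) (H2 := addC H q hnd hl) (X := fun _ => True)
            (fun _ _ _ hxy => ⟨Or.inl hxy, trivial⟩) trivial h).1
      rw [h2]
      exact Finset.mem_image_of_mem _ hv'
  refine (Finset.card_le_card h1).trans ?_
  exact Finset.card_insert_le _ _

theorem bot_cf : CF G (⊥ : SimpleGraph V) where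
  le := bot_le
  deg v := by
    left
    unfold dg
    rw [Finset.card_eq_zero]
    ext b
    simp

theorem phi_bot (l : ℕ) : phi l (⊥ : SimpleGraph V) = 0 := by
  have h1 : cov (⊥ : SimpleGraph V) = ∅ := by
    ext v
    simp [mem_cov]
  unfold phi ncyc cycs
  rw [h1]
  simp

theorem three_le {v : V} (h : CF G H) (hv : v ∈ cov H) : 3 ≤ (cyc H v).card := by
  have h1 : dg H v = 2 := by
    rcases h.deg v with h1 | h1
    · obtain ⟨w, hw⟩ := mem_cov.1 hv
      unfold dg at h1
      rw [Finset.card_eq_zero, Finset.filter_eq_empty_iff] at h1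
      exact absurd hw (h1 (Finset.mem_univ w))
    · exact h1
  have h2 : insert v (Finset.univ.filter (fun w => H.Adj v w)) ⊆ cyc H v := by
    intro w hw
    rw [Finset.mem_insert, Finset.mem_filter] at hw
    rcases hw with rfl | hw
    · exact self_mem_cyc H w
    · exact mem_cyc.2 hw.2.reachable
  have h3 := Finset.card_le_card h2
  rw [Finset.card_insert_of_notMem (by simp)] at h3
  unfold dg at h1
  omega

end

/-- OPT -/
theorem opt : OptStatement.{u} := by
  intro V _ G l
  constructor
  · obtain ⟨H, hH, hmax⟩ := Set.exists_max_image {H : SimpleGraph V | CF G H} (phi l)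
      (Set.toFinite _) ⟨⊥, bot_cf⟩
    exact ⟨H, hH, fun H' hH' => hmax H' hH'⟩
  · rintro H ⟨hcf, hmax⟩
    refine ⟨fun v hv => ⟨?_, three_le hcf hv⟩, fun q hc hd => ?_, ?_⟩
    · have h1 := hmax _ (delC_cf hcf v)
      have h2 := delC_ncyc hv
      have h3 : (cov (delC H v)).card = (cov H).card - (cyc H v).card := by
        rw [delC_cov, Finset.card_sdiff_of_subset (cyc_subset_cov hv)]
      have h4 := Finset.card_le_card (cyc_subset_cov hv)
      have h5 : ((cov (delC H v)).card : ℤ) = (cov H).card - (cyc H v).card := by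
        rw [h3]; push_cast [Nat.cast_sub h4]; ring
      unfold phi at h1
      rw [h5] at h1
      have h6 : (l : ℤ) * (ncyc (delC H v) + 1) ≤ l * ncyc H := by
        exact_mod_cast Nat.mul_le_mul_left l h2
      have h7 : (l : ℤ) ≤ (cyc H v).card := by linarith
      exact_mod_cast h7
    · have h1 := hmax _ (addC_cf hcf hc hd)
      have h2 := addC_ncyc (H := H) hc.1.2.2 hc.2.1 hd
      have h3 : (cov (addC H q hc.1.2.2 hc.2.1)).card = (cov H).card + q.length := by
        rw [addC_cov, Finset.card_union_of_disjoint, List.toFinset_card_of_nodup hc.1.2.2]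
        rw [Finset.disjoint_left]
        intro a ha ha'
        exact hd a (List.mem_toFinset.1 ha') ha
      unfold phi at h1
      rw [h3] at h1
      have h6 : (l : ℤ) * ncyc (addC H q hc.1.2.2 hc.2.1) ≤ l * (ncyc H + 1) := by
        exact_mod_cast Nat.mul_le_mul_left l h2
      push_cast at h1
      have h7 : (q.length : ℤ) ≤ l := by linarith
      exact_mod_cast h7
    · have := hmax ⊥ bot_cf
      rwa [phi_bot] at this

end Pool.Agent.Lib.MP_688fd0_co.LIN.H15
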