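import Pool.Agent.Lib.MP_688fd0_co.LIN.Iface

/-!
# Module SEP: far apart subsets
-/

set_option autoImplicit false

namespace Pool.Agent.Lib.MP_688fd0_co.LIN.H15

open Classical

universe u

section

variable {V : Type u} [Fintype V] {H : SimpleGraph V}

/-- sphere -/
noncomputable def sph (H : SimpleGraph V) (x : V) (k : ℕ) : Finset V :=
  Finset.univ.filter (fun y => H.Reachable x y ∧ H.dist x y = k)

/-- ball inside the component -/
noncomputable def bal (H : SimpleGraph V) (x : V) (r : ℕ) : Finset V :=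
  Finset.univ.filter (fun y => H.Reachable x y ∧ H.dist x y ≤ r)

theorem mem_sph {x y : V} {k : ℕ} : y ∈ sph H x k ↔ H.Reachable x y ∧ H.dist x y = k := by
  simp [sph]

theorem mem_bal {x y : V} {r : ℕ} : y ∈ bal H x r ↔ H.Reachable x y ∧ H.dist x y ≤ r := by
  simp [bal]

theorem exists_prev {x y : V} {k : ℕ} (h : y ∈ sph H x (k + 1)) :
    ∃ z ∈ sph H x k, H.Adj z y := by
  obtain ⟨hr, hd⟩ := mem_sph.1 h
  obtain ⟨p, hp⟩ := hr.symm.exists_walk_length_eq_dist
  rw [SimpleGraph.dist_comm, hd] at hp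
  cases p with
  | nil => simp at hp
  | @cons _ z _ hadj q =>
    rw [SimpleGraph.Walk.length_cons] at hp
    have h1 : H.dist z x ≤ k := (SimpleGraph.dist_le q).trans (by omega)
    have h2 : H.Reachable x z := hr.trans hadj.reachable
    have h3 := h2.dist_triangle_left y
    have h4 : H.dist z y = 1 := SimpleGraph.dist_eq_one_iff_adj.2 hadj.symm
    rw [SimpleGraph.dist_comm] at h1
    exact ⟨z, mem_sph.2 ⟨h2, by omega⟩, hadj.symm⟩

theorem sph_zero (x : V) : (sph H x 0).card ≤ 1 := by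
  rw [Finset.card_le_one]
  intro a ha b hb
  obtain ⟨h1, h2⟩ := mem_sph.1 ha
  obtain ⟨h3, h4⟩ := mem_sph.1 hb
  rw [h1.dist_eq_zero_iff] at h2
  rw [h3.dist_eq_zero_iff] at h4
  rw [← h2, ← h4]

theorem sph_le (hdg : ∀ v, dg H v ≤ 2) (x : V) (k : ℕ) : (sph H x (k + 1)).card ≤ 2 := by
  induction k with
  | zero =>
    refine le_trans (Finset.card_le_card ?_) (hdg x)
    intro y hy
    obtain ⟨z, hz, hzy⟩ := exists_prev hy
    obtain ⟨h1, h2⟩ := mem_sph.1 hz
    rw [h1.dist_eq_zero_iff] at h2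
    subst h2
    simpa using hzy
  | succ k ih =>
    refine le_trans ?_ ih
    choose! g hg1 hg2 using fun (y : V) (hy : y ∈ sph H x (k + 1 + 1)) => exists_prev hy
    refine Finset.card_le_card_of_injOn g (fun y hy => hg1 y hy) ?_
    intro a ha b hb hab
    by_contra hne
    obtain ⟨z, hz, hzg⟩ := exists_prev (hg1 a ha)
    have h1 : ({a, b, z} : Finset V) ⊆ Finset.univ.filter (fun w => H.Adj (g a) w) := by
      intro w hw
      simp only [Finset.mem_insert, Finset.mem_singleton] at hw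
      rw [Finset.mem_filter]
      refine ⟨Finset.mem_univ _, ?_⟩
      rcases hw with rfl | rfl | rfl
      · exact hg2 _ ha
      · rw [hab]; exact hg2 _ hb
      · exact hzg.symm
    have h2 := (Finset.card_le_card h1).trans (hdg (g a))
    have ha' := (mem_sph.1 ha).2
    have hb' := (mem_sph.1 hb).2
    have hz' := (mem_sph.1 hz).2
    have haz : a ≠ z := by rintro rfl; omega
    have hbz : b ≠ z := by rintro rfl; omega
    rw [Finset.card_insert_of_notMem (by simp [hne, haz]), Finset.card_pair hbz] at h2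
    omega

theorem bal_sum (x : V) (r : ℕ) :
    (bal H x r).card = ∑ k ∈ Finset.range (r + 1), (sph H x k).card := by
  rw [Finset.card_eq_sum_card_fiberwise (f := fun y => H.dist x y) (t := Finset.range (r + 1))]
  · refine Finset.sum_congr rfl fun k hk => ?_
    congr 1
    ext y
    rw [Finset.mem_filter, mem_bal, mem_sph]
    have := Finset.mem_range.1 hk
    constructor
    · rintro ⟨⟨h1, h2⟩, h3⟩
      exact ⟨h1, h3⟩
    · rintro ⟨h1, h3⟩
      exact ⟨⟨h1, by omega⟩, h3⟩
  · intro y hy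
    have := (mem_bal.1 (Finset.mem_coe.1 hy)).2
    simp only [Finset.coe_range, Set.mem_Iio]
    omega

theorem bal_le (hdg : ∀ v, dg H v ≤ 2) (x : V) (r : ℕ) : (bal H x r).card ≤ 2 * r + 1 := by
  rw [bal_sum, Finset.sum_range_succ']
  have h1 : ∑ k ∈ Finset.range r, (sph H x (k + 1)).card ≤ ∑ k ∈ Finset.range r, 2 :=
    Finset.sum_le_sum fun k _ => sph_le hdg x k
  rw [Finset.sum_const, Finset.card_range, smul_eq_mul] at h1
  have h2 := sph_zero (H := H) x
  omega

theorem sph_nonempty {x y : V} (hr : H.Reachable x y) (j : ℕ) :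
    j ≤ H.dist x y → (sph H x (H.dist x y - j)).Nonempty := by
  induction j with
  | zero => exact fun _ => ⟨y, mem_sph.2 ⟨hr, rfl⟩⟩
  | succ j ih =>
    intro hj
    obtain ⟨z, hz⟩ := ih (by omega)
    have h1 : H.dist x y - j = H.dist x y - (j + 1) + 1 := by omega
    rw [h1] at hz
    obtain ⟨z', hz', -⟩ := exists_prev hz
    exact ⟨z', hz'⟩

theorem le_bal {x y : V} (hr : H.Reachable x y) {r : ℕ} (h : r ≤ H.dist x y) :
    r + 1 ≤ (bal H x r).card := by
  rw [bal_sum]
  have h1 : ∑ k ∈ Finset.range (r + 1), 1 ≤ ∑ k ∈ Finset.range (r + 1), (sph H x k).card := by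
    refine Finset.sum_le_sum fun k hk => ?_
    have hk' := Finset.mem_range.1 hk
    have h2 := sph_nonempty hr (H.dist x y - k) (by omega)
    have h3 : H.dist x y - (H.dist x y - k) = k := by omega
    rw [h3] at h2
    exact Finset.card_pos.2 h2
  simpa using h1

end

/-- SEP -/
theorem sep : SepStatement.{u} := by
  intro V _ G H hcf w hw hlen P hP hsep D1 hD1
  have hdg : ∀ v, dg H v ≤ 2 := fun v => by rcases hcf.deg v with h | h <;> omega
  let good : Finset V → Prop := fun P' => ∀ p ∈ P', ∀ p' ∈ P', p ≠ p' → H.Reachable p p' →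
    D1 * w ≤ H.dist p p'
  obtain ⟨P', hP', hmax⟩ := Finset.exists_max_image (P.powerset.filter good) Finset.card
    ⟨∅, by simp [good]⟩
  rw [Finset.mem_filter, Finset.mem_powerset] at hP'
  obtain ⟨hsub, hg⟩ := hP'
  refine ⟨P', hsub, hg, ?_⟩
  have hDw : 0 < D1 * w := Nat.mul_pos (by omega) (by omega)
  have h1 : ∀ p ∈ P, ∃ p' ∈ P', H.Reachable p' p ∧ H.dist p' p < D1 * w := by
    intro p hp
    by_contra hcon
    push Not at hcon
    have hpP' : p ∉ P' := fun h => by
      have := hcon p h (SimpleGraph.Reachable.refl p)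
      rw [SimpleGraph.dist_self] at this
      omega
    have hins : insert p P' ∈ P.powerset.filter good := by
      rw [Finset.mem_filter, Finset.mem_powerset]
      refine ⟨Finset.insert_subset hp hsub, ?_⟩
      intro a ha b hb hab hr
      rcases Finset.mem_insert.1 ha with rfl | ha1
      · rcases Finset.mem_insert.1 hb with rfl | hb1
        · exact absurd rfl hab
        · rw [SimpleGraph.dist_comm]
          exact hcon b hb1 hr.symm
      · rcases Finset.mem_insert.1 hb with rfl | hb1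
        · exact hcon a ha1 hr
        · exact hg a ha1 b hb1 hab hr
    have h2 := hmax _ hins
    rw [Finset.card_insert_of_notMem hpP'] at h2
    omega
  choose! g hg1 hg2 hg3 using h1
  refine Finset.card_le_mul_card_image_of_maps_to (f := g) (t := P') (fun p hp => hg1 p hp) D1 ?_
  intro b hb
  set Q := P.filter (fun p => g p = b) with hQ
  have hQm : ∀ p ∈ Q, p ∈ P ∧ H.Reachable b p ∧ H.dist b p < D1 * w := by
    intro p hp
    rw [hQ, Finset.mem_filter] at hp
    obtain ⟨hp1, hp2⟩ := hp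
    subst hp2
    exact ⟨hp1, hg2 p hp1, hg3 p hp1⟩
  have hbig : ∀ p ∈ Q, 7 * w + 1 ≤ (bal H p (7 * w)).card := by
    intro p hp
    have hpc : p ∈ cov H := hP (hQm p hp).1
    have h2 := hlen p hpc
    have h3 := bal_le hdg p (7 * w)
    have h4 : ∃ y ∈ cyc H p, y ∉ bal H p (7 * w) := by
      by_contra hcon
      push Not at hcon
      have := Finset.card_le_card (s := cyc H p) (t := bal H p (7 * w)) hcon
      omega
    obtain ⟨y, hy, hyn⟩ := h4
    have hr : H.Reachable p y := by simpa [cyc] using hy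
    have h5 : ¬ H.dist p y ≤ 7 * w := fun h => hyn (mem_bal.2 ⟨hr, h⟩)
    exact le_bal hr (by omega)
  have hdisj : ∀ p ∈ Q, ∀ p' ∈ Q, p ≠ p' → Disjoint (bal H p (7 * w)) (bal H p' (7 * w)) := by
    intro p hp p' hp' hne
    rw [Finset.disjoint_left]
    intro z hz hz'
    obtain ⟨h2, h3⟩ := mem_bal.1 hz
    obtain ⟨h4, h5⟩ := mem_bal.1 hz'
    have h6 := hsep p (hQm p hp).1 p' (hQm p' hp').1 hne (h2.trans h4.symm)
    have h7 := h2.dist_triangle_left p'
    rw [SimpleGraph.dist_comm (u := z)] at h7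
    omega
  have hunion : (Q.biUnion fun p => bal H p (7 * w)) ⊆ bal H b (D1 * w + 7 * w - 1) := by
    intro z hz
    obtain ⟨p, hp, hz⟩ := Finset.mem_biUnion.1 hz
    obtain ⟨-, h2, h3⟩ := hQm p hp
    obtain ⟨h4, h5⟩ := mem_bal.1 hz
    refine mem_bal.2 ⟨h2.trans h4, ?_⟩
    have h6 := h2.dist_triangle_left z
    omega
  have h2 := (Finset.card_le_card hunion).trans (bal_le hdg b _)
  rw [Finset.card_biUnion hdisj] at h2
  have h3 : Q.card * (7 * w + 1) ≤ ∑ p ∈ Q, (bal H p (7 * w)).card := by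
    rw [← smul_eq_mul]
    exact Finset.card_nsmul_le_sum _ _ _ hbig
  by_contra hcon
  rw [not_le] at hcon
  have h4 : (D1 + 1) * (7 * w + 1) ≤ Q.card * (7 * w + 1) := Nat.mul_le_mul_right _ hcon
  have h5 : (D1 + 1) * (7 * w + 1) ≤ 2 * (D1 * w + 7 * w - 1) + 1 := h4.trans (h3.trans h2)
  have h6 : 3 * w ≤ D1 * w := Nat.mul_le_mul_right _ hD1
  have h7 : (D1 + 1) * (7 * w + 1) = 7 * (D1 * w) + 7 * w + D1 + 1 := by ring
  rw [h7] at h5
  omega

end Pool.Agent.Lib.MP_688fd0_co.LIN.H15
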